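import Pool.Agent.W478R.Defs

set_option autoImplicit false

/-! # The certificate inequality (two-reservoir book theorem) -/

namespace Pool.Agent.W460.RS

/-- Taylor polynomial of degree seven -/
noncomputable def T7 (s : ℝ) : ℝ :=
  1 + s + s ^ 2 / 2 + s ^ 3 / 6 + s ^ 4 / 24 + s ^ 5 / 120 + s ^ 6 / 720 + s ^ 7 / 5040

/-- Taylor polynomial of degree six -/
noncomputable def T6 (s : ℝ) : ℝ :=
  1 + s + s ^ 2 / 2 + s ^ 3 / 6 + s ^ 4 / 24 + s ^ 5 / 120 + s ^ 6 / 720

theorem T7_le_exp (s : ℝ) : T7 s ≤ Real.exp s := by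
  -- `exp(-s) T7(s)` has derivative `- exp(-s) s^7/5040`
  have hder : ∀ t : ℝ, HasDerivAt (fun t => T7 t * Real.exp (-t))
      (-(t ^ 7 / 5040) * Real.exp (-t)) t := by
    intro t
    have h1 : HasDerivAt T7 (T6 t) t := by
      unfold T7 T6
      have := ((((((((hasDerivAt_const t (1 : ℝ)).add (hasDerivAt_id t)).add
        ((hasDerivAt_pow 2 t).div_const 2)).add ((hasDerivAt_pow 3 t).div_const 6)).add
        ((hasDerivAt_pow 4 t).div_const 24)).add ((hasDerivAt_pow 5 t).div_const 120)).add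
        ((hasDerivAt_pow 6 t).div_const 720)).add ((hasDerivAt_pow 7 t).div_const 5040))
      have e1 : (0 : ℝ) + 1 + ((2 : ℕ) : ℝ) * t ^ (2 - 1) / 2 + ((3 : ℕ) : ℝ) * t ^ (3 - 1) / 6 +
          ((4 : ℕ) : ℝ) * t ^ (4 - 1) / 24 + ((5 : ℕ) : ℝ) * t ^ (5 - 1) / 120 +
          ((6 : ℕ) : ℝ) * t ^ (6 - 1) / 720 + ((7 : ℕ) : ℝ) * t ^ (7 - 1) / 5040 =
          1 + t + t ^ 2 / 2 + t ^ 3 / 6 + t ^ 4 / 24 + t ^ 5 / 120 + t ^ 6 / 720 := by
        norm_num
        ring
      rw [e1] at this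
      exact this
    have h2 : HasDerivAt (fun t : ℝ => Real.exp (-t)) (-Real.exp (-t)) t := by
      have := (hasDerivAt_neg t).exp
      simpa using this
    have h3 := h1.mul h2
    have e2 : T6 t * Real.exp (-t) + T7 t * -Real.exp (-t) = -(t ^ 7 / 5040) * Real.exp (-t) := by
      unfold T7 T6
      ring
    rw [e2] at h3
    exact h3
  have hdiff : Differentiable ℝ (fun t => T7 t * Real.exp (-t)) := fun t =>
    (hder t).differentiableAt
  have h0 : T7 0 * Real.exp (-0) = 1 := by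
    unfold T7
    norm_num
  have hkey : T7 s * Real.exp (-s) ≤ 1 := by
    rw [← h0]
    rcases le_total 0 s with hs | hs
    · have hanti : AntitoneOn (fun t => T7 t * Real.exp (-t)) (Set.Ici 0) := by
        refine antitoneOn_of_deriv_nonpos (convex_Ici 0) hdiff.continuous.continuousOn
          hdiff.differentiableOn ?_
        intro t ht
        rw [interior_Ici] at ht
        have ht' : (0 : ℝ) < t := ht
        rw [(hder t).deriv]
        have : 0 ≤ t ^ 7 / 5040 * Real.exp (-t) := by positivity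
        linarith
      exact hanti Set.self_mem_Ici hs hs
    · have hmono : MonotoneOn (fun t => T7 t * Real.exp (-t)) (Set.Iic 0) := by
        refine monotoneOn_of_deriv_nonneg (convex_Iic 0) hdiff.continuous.continuousOn
          hdiff.differentiableOn ?_
        intro t ht
        rw [interior_Iic] at ht
        have ht' : t < 0 := ht
        rw [(hder t).deriv]
        have h1 : t ^ 7 < 0 := Odd.pow_neg (by decide) ht'
        have h2 : 0 < Real.exp (-t) := Real.exp_pos _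
        have : 0 ≤ -(t ^ 7 / 5040) := by linarith
        positivity
      exact hmono hs Set.self_mem_Iic hs
  have h4 : 0 < Real.exp (-s) := Real.exp_pos _
  have h5 : Real.exp s * Real.exp (-s) = 1 := by
    rw [← Real.exp_add]
    simp
  have h6 : T7 s * Real.exp (-s) ≤ Real.exp s * Real.exp (-s) := by rw [h5]; exact hkey
  exact le_of_mul_le_mul_right h6 h4

/-- `B1^2 + 4 C2 A0` -/
noncomputable def PP (s : ℝ) : ℝ :=
  134574629 / 500000000 + 60637941 / 250000000 * s + 10775359 / 100000000 * s ^ 2 +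
    259259 / 10000000 * s ^ 3 + 1089 / 4000000 * s ^ 4

theorem psi_pos (s : ℝ) (h0 : 0 ≤ s) (h9 : s ≤ 9) :
    PP s ≤ (6734 / 25000 - 693 / 25000 * s) * T7 s := by
  unfold PP T7
  have e8 : 0 ≤ s ^ 7 * (9 - s) := mul_nonneg (pow_nonneg h0 7) (by linarith)
  have e7 : 0 ≤ s ^ 6 * (9 - s) := mul_nonneg (pow_nonneg h0 6) (by linarith)
  have e6 : 0 ≤ s ^ 5 * (9 - s) := mul_nonneg (pow_nonneg h0 5) (by linarith)
  have e5 : 0 ≤ s ^ 4 * (9 - s) := mul_nonneg (pow_nonneg h0 4) (by linarith)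
  have e1 : 0 ≤ (s - 275 / 1000) ^ 2 * (25915 / 10000000 + 65039 / 10000000 * s +
      2539 / 1000000 * s ^ 2) := by positivity
  have e4 : 0 ≤ s ^ 4 := by positivity
  have e3 : 0 ≤ s ^ 3 := by positivity
  have e2 : 0 ≤ s ^ 2 := by positivity
  nlinarith [e1, e2, e3, e4, e5, e6, e7, e8, h0]

theorem psi_neg (s : ℝ) (h0 : s ≤ 0) (h9 : -(22 / 10) ≤ s) :
    PP s ≤ (6734 / 25000 - 693 / 25000 * s) * T7 s := by
  unfold PP T7
  obtain ⟨t, rfl⟩ : ∃ t, s = -t := ⟨-s, by ring⟩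
  have ht : 0 ≤ t := by linarith
  have ht2 : t ≤ 22 / 10 := by linarith
  have e8 : 0 ≤ t ^ 7 * (22 / 10 - t) := mul_nonneg (pow_nonneg ht 7) (by linarith)
  have e7 : 0 ≤ t ^ 6 * (22 / 10 - t) := mul_nonneg (pow_nonneg ht 6) (by linarith)
  have e1 : 0 ≤ (t - 73 / 100) ^ 2 * (2941 / 10000000 + 2524 / 1000000 * t +
      48738 / 10000000 * t ^ 2 - 9676 / 10000000 * t ^ 3 + 836 / 10000000 * t ^ 4) := by
    apply mul_nonneg (sq_nonneg _)
    have : 0 ≤ t ^ 2 * (22 / 10 - t) := mul_nonneg (sq_nonneg t) (by linarith)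
    nlinarith [pow_nonneg ht 4, pow_nonneg ht 2]
  have e4 : 0 ≤ t ^ 4 := by positivity
  have e5 : 0 ≤ t ^ 5 := by positivity
  have e6 : 0 ≤ t ^ 6 := by positivity
  have e3 : 0 ≤ t ^ 3 := by positivity
  have e2 : 0 ≤ t ^ 2 := by positivity
  nlinarith [e1, e2, e3, e4, e5, e6, e7, e8, ht, ht2]

theorem PP_neg (u : ℝ) (h1 : 22 / 10 ≤ u) (h2 : u ≤ 90) : PP (-u) ≤ 0 := by
  unfold PP
  rcases le_total u 5 with h | h
  · have e1 : 0 ≤ u ^ 3 * (5 - u) := mul_nonneg (by positivity) (by linarith)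
    have e2 : 0 ≤ (u - 22 / 10) * (u ^ 2) := mul_nonneg (by linarith) (by positivity)
    nlinarith [e1, e2, sq_nonneg (u - 22 / 10), mul_nonneg (show (0 : ℝ) ≤ u - 22 / 10 by linarith)
      (sq_nonneg (u - 22 / 10))]
  · have e1 : 0 ≤ (u - 5) * (90 - u) := mul_nonneg (by linarith) (by linarith)
    have e2 : 0 ≤ u ^ 2 * ((u - 5) * (90 - u)) := mul_nonneg (by positivity) e1
    nlinarith [e1, e2, pow_nonneg (show (0 : ℝ) ≤ u by linarith) 2,
      pow_nonneg (show (0 : ℝ) ≤ u by linarith) 3]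

/-- tangent line of the sixth power -/
theorem six_tangent (u u0 : ℝ) (hu : 0 ≤ u) (hu0 : 0 ≤ u0) :
    6 * u0 ^ 5 * u ≤ u ^ 6 + 5 * u0 ^ 6 := by
  have h : u ^ 6 + 5 * u0 ^ 6 - 6 * u0 ^ 5 * u = (u - u0) ^ 2 * (u ^ 4 + 2 * u ^ 3 * u0 +
      3 * u ^ 2 * u0 ^ 2 + 4 * u * u0 ^ 3 + 5 * u0 ^ 4) := by ring
  have h2 : 0 ≤ (u - u0) ^ 2 * (u ^ 4 + 2 * u ^ 3 * u0 +
      3 * u ^ 2 * u0 ^ 2 + 4 * u * u0 ^ 3 + 5 * u0 ^ 4) := by positivity
  linarith

/-- the expression for `x = -(u + 2y/5)`, after dropping lower order terms -/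
noncomputable def Hf (u y : ℝ) : ℝ :=
  u * (-(11 / 1000) * u ^ 2 + 297 / 10000 * (u * y) - 1386 / 100000 * y ^ 2)
    - 3348 / 10000 * (u * y) - 13468 / 100000 * y ^ 2
    - 5 / 10 ^ 15 * ((u + 2 / 5 * y) ^ 8 + y ^ 8)

theorem far_aux (v1 M u0 : ℝ) (hv1 : 0 ≤ v1) (hu0 : 0 ≤ u0)
    (h1 : M ≤ 6 * (5 / 10 ^ 15) * ((1 + 2 / 5 * v1) ^ 8 + v1 ^ 8) * u0 ^ 5)
    (h2 : 5 * (5 / 10 ^ 15) * ((1 + 2 / 5 * v1) ^ 8 + v1 ^ 8) * u0 ^ 6 ≤
      3348 / 10000 * v1 + 13468 / 100000 * v1 ^ 2)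
    (u y : ℝ) (hu : 90 ≤ u) (hy : v1 * u ≤ y)
    (hM : -(11 / 1000) * u ^ 2 + 297 / 10000 * (u * y) - 1386 / 100000 * y ^ 2 ≤ M * u ^ 2) :
    Hf u y ≤ 0 := by
  have hu' : 0 ≤ u := by linarith
  have hvu : 0 ≤ v1 * u := mul_nonneg hv1 hu'
  have hy0 : 0 ≤ y := hvu.trans hy
  set c8 := (1 + 2 / 5 * v1) ^ 8 + v1 ^ 8 with hc8
  have hc80 : 0 ≤ c8 := by positivity
  have e1 : u * (-(11 / 1000) * u ^ 2 + 297 / 10000 * (u * y) - 1386 / 100000 * y ^ 2) ≤
      u * (M * u ^ 2) := mul_le_mul_of_nonneg_left hM hu'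
  have e2 : (3348 / 10000 * v1 + 13468 / 100000 * v1 ^ 2) * u ^ 2 ≤
      3348 / 10000 * (u * y) + 13468 / 100000 * y ^ 2 := by
    have a1 : u * (v1 * u) ≤ u * y := mul_le_mul_of_nonneg_left hy hu'
    have a2 : (v1 * u) ^ 2 ≤ y ^ 2 := pow_le_pow_left₀ hvu hy 2
    nlinarith
  have e3 : c8 * u ^ 8 ≤ (u + 2 / 5 * y) ^ 8 + y ^ 8 := by
    have a1 : (v1 * u) ^ 8 ≤ y ^ 8 := pow_le_pow_left₀ hvu hy 8
    have a2 : ((1 + 2 / 5 * v1) * u) ^ 8 ≤ (u + 2 / 5 * y) ^ 8 := by
      apply pow_le_pow_left₀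
      · positivity
      · linarith
    rw [mul_pow] at a1 a2
    rw [hc8]
    linarith
  have e4 : M * u ≤ 5 / 10 ^ 15 * c8 * u ^ 6 +
      (3348 / 10000 * v1 + 13468 / 100000 * v1 ^ 2) := by
    have a1 := six_tangent u u0 hu' hu0
    have a2 : M * u ≤ 6 * (5 / 10 ^ 15) * c8 * u0 ^ 5 * u := mul_le_mul_of_nonneg_right h1 hu'
    have a3 : 5 / 10 ^ 15 * c8 * (6 * u0 ^ 5 * u) ≤ 5 / 10 ^ 15 * c8 * (u ^ 6 + 5 * u0 ^ 6) :=
      mul_le_mul_of_nonneg_left a1 (by positivity)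
    nlinarith
  have e5 : u ^ 2 * (M * u) ≤ u ^ 2 * (5 / 10 ^ 15 * c8 * u ^ 6 +
      (3348 / 10000 * v1 + 13468 / 100000 * v1 ^ 2)) :=
    mul_le_mul_of_nonneg_left e4 (by positivity)
  unfold Hf
  nlinarith [e1, e2, e3, e5]

theorem far_step (v1 v2 u0 : ℝ) (hv1 : 0 ≤ v1) (hv2 : v2 ≤ 107 / 100) (hu0 : 0 ≤ u0)
    (h1 : -(11 / 1000) + 297 / 10000 * v2 - 1386 / 100000 * v2 ^ 2 ≤
      6 * (5 / 10 ^ 15) * ((1 + 2 / 5 * v1) ^ 8 + v1 ^ 8) * u0 ^ 5)
    (h2 : 5 * (5 / 10 ^ 15) * ((1 + 2 / 5 * v1) ^ 8 + v1 ^ 8) * u0 ^ 6 ≤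
      3348 / 10000 * v1 + 13468 / 100000 * v1 ^ 2)
    (u y : ℝ) (hu : 90 ≤ u) (hy : v1 * u ≤ y) (hy2 : y ≤ v2 * u) : Hf u y ≤ 0 := by
  refine far_aux v1 _ u0 hv1 hu0 h1 h2 u y hu hy ?_
  have hu' : 0 ≤ u := by linarith
  have e1 : 0 ≤ (v2 * u - y) * (297 / 10000 * u - 1386 / 100000 * (y + v2 * u)) := by
    apply mul_nonneg (by linarith)
    have : v2 * u ≤ 107 / 100 * u := mul_le_mul_of_nonneg_right hv2 hu'
    linarith
  nlinarith [e1]

theorem far_last (v1 u0 : ℝ) (hv1 : 0 ≤ v1) (hu0 : 0 ≤ u0)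
    (h1 : 4911 / 1000000 ≤ 6 * (5 / 10 ^ 15) * ((1 + 2 / 5 * v1) ^ 8 + v1 ^ 8) * u0 ^ 5)
    (h2 : 5 * (5 / 10 ^ 15) * ((1 + 2 / 5 * v1) ^ 8 + v1 ^ 8) * u0 ^ 6 ≤
      3348 / 10000 * v1 + 13468 / 100000 * v1 ^ 2)
    (u y : ℝ) (hu : 90 ≤ u) (hy : v1 * u ≤ y) : Hf u y ≤ 0 := by
  refine far_aux v1 _ u0 hv1 hu0 h1 h2 u y hu hy ?_
  nlinarith [sq_nonneg (y - 107143 / 100000 * u), sq_nonneg u]

theorem far_pos (u y : ℝ) (hu : 90 ≤ u) (hy : 0 ≤ y) : Hf u y ≤ 0 := by
  rcases le_total y (476 / 1000 * u) with h0 | h0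
  · have hu' : 0 ≤ u := by linarith
    have e1 : -(11 / 1000) * u ^ 2 + 297 / 10000 * (u * y) - 1386 / 100000 * y ^ 2 ≤ 0 := by
      have e2 : 0 ≤ (476 / 1000 * u - y) * (297 / 10000 * u - 1386 / 100000 * (y + 476 / 1000 * u)) := by
        apply mul_nonneg (by linarith)
        linarith
      nlinarith [e2, sq_nonneg u]
    have e3 := mul_nonneg hu' hy
    have e4 : u * (-(11 / 1000) * u ^ 2 + 297 / 10000 * (u * y) - 1386 / 100000 * y ^ 2) ≤ 0 :=
      mul_nonpos_of_nonneg_of_nonpos hu' e1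
    have e5 : 0 ≤ 5 / 10 ^ 15 * ((u + 2 / 5 * y) ^ 8 + y ^ 8) := by positivity
    have e6 : 0 ≤ y ^ 2 := sq_nonneg y
    unfold Hf
    linarith
  rcases le_total y (617 / 1000 * u) with h1 | h1
  · exact far_step (476 / 1000) (617 / 1000) (11111 / 100) (by norm_num) (by norm_num)
      (by norm_num) (by norm_num) (by norm_num) u y hu h0 h1
  rcases le_total y (682 / 1000 * u) with h2 | h2
  · exact far_step (617 / 1000) (682 / 1000) (10985 / 100) (by norm_num) (by norm_num)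
      (by norm_num) (by norm_num) (by norm_num) u y hu h1 h2
  rcases le_total y (720 / 1000 * u) with h3 | h3
  · exact far_step (682 / 1000) (720 / 1000) (10900 / 100) (by norm_num) (by norm_num)
      (by norm_num) (by norm_num) (by norm_num) u y hu h2 h3
  rcases le_total y (745 / 1000 * u) with h4 | h4
  · exact far_step (720 / 1000) (745 / 1000) (10842 / 100) (by norm_num) (by norm_num)
      (by norm_num) (by norm_num) (by norm_num) u y hu h3 h4
  rcases le_total y (763 / 1000 * u) with h5 | h5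
  · exact far_step (745 / 1000) (763 / 1000) (10802 / 100) (by norm_num) (by norm_num)
      (by norm_num) (by norm_num) (by norm_num) u y hu h4 h5
  rcases le_total y (777 / 1000 * u) with h6 | h6
  · exact far_step (763 / 1000) (777 / 1000) (10772 / 100) (by norm_num) (by norm_num)
      (by norm_num) (by norm_num) (by norm_num) u y hu h5 h6
  rcases le_total y (789 / 1000 * u) with h7 | h7
  · exact far_step (777 / 1000) (789 / 1000) (10749 / 100) (by norm_num) (by norm_num)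
      (by norm_num) (by norm_num) (by norm_num) u y hu h6 h7
  rcases le_total y (800 / 1000 * u) with h8 | h8
  · exact far_step (789 / 1000) (800 / 1000) (10729 / 100) (by norm_num) (by norm_num)
      (by norm_num) (by norm_num) (by norm_num) u y hu h7 h8
  rcases le_total y (810 / 1000 * u) with h9 | h9
  · exact far_step (800 / 1000) (810 / 1000) (10709 / 100) (by norm_num) (by norm_num)
      (by norm_num) (by norm_num) (by norm_num) u y hu h8 h9
  rcases le_total y (819 / 1000 * u) with h10 | h10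
  · exact far_step (810 / 1000) (819 / 1000) (10690 / 100) (by norm_num) (by norm_num)
      (by norm_num) (by norm_num) (by norm_num) u y hu h9 h10
  rcases le_total y (828 / 1000 * u) with h11 | h11
  · exact far_step (819 / 1000) (828 / 1000) (10673 / 100) (by norm_num) (by norm_num)
      (by norm_num) (by norm_num) (by norm_num) u y hu h10 h11
  rcases le_total y (838 / 1000 * u) with h12 | h12
  · exact far_step (828 / 1000) (838 / 1000) (10657 / 100) (by norm_num) (by norm_num)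
      (by norm_num) (by norm_num) (by norm_num) u y hu h11 h12
  rcases le_total y (849 / 1000 * u) with h13 | h13
  · exact far_step (838 / 1000) (849 / 1000) (10638 / 100) (by norm_num) (by norm_num)
      (by norm_num) (by norm_num) (by norm_num) u y hu h12 h13
  rcases le_total y (862 / 1000 * u) with h14 | h14
  · exact far_step (849 / 1000) (862 / 1000) (10617 / 100) (by norm_num) (by norm_num)
      (by norm_num) (by norm_num) (by norm_num) u y hu h13 h14
  rcases le_total y (879 / 1000 * u) with h15 | h15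
  · exact far_step (862 / 1000) (879 / 1000) (10592 / 100) (by norm_num) (by norm_num)
      (by norm_num) (by norm_num) (by norm_num) u y hu h14 h15
  rcases le_total y (904 / 1000 * u) with h16 | h16
  · exact far_step (879 / 1000) (904 / 1000) (10558 / 100) (by norm_num) (by norm_num)
      (by norm_num) (by norm_num) (by norm_num) u y hu h15 h16
  rcases le_total y (951 / 1000 * u) with h17 | h17
  · exact far_step (904 / 1000) (951 / 1000) (10508 / 100) (by norm_num) (by norm_num)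
      (by norm_num) (by norm_num) (by norm_num) u y hu h16 h17
  exact far_last (951 / 1000) (10374 / 100) (by norm_num) (by norm_num)
    (by norm_num) (by norm_num) u y hu h17

/-- the certificate polynomial -/
noncomputable def GG (x y : ℝ) : ℝ :=
  4459 / 10000 + 2835 / 10000 * (x + y) + 3367 / 10000 * (x * y) + 11 / 1000 * (x ^ 3 + y ^ 3) +
    429 / 10000 * (x * y * (x + y)) - 5 / 10 ^ 15 * (x ^ 8 + y ^ 8)

theorem far (u y : ℝ) (hu : 90 ≤ u) : GG (-(u + 2 / 5 * y)) y ≤ 0 := by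
  rcases le_total 0 y with hy | hy
  · have h1 := far_pos u y hu hy
    have h2 : 0 ≤ (u - 90) * y := mul_nonneg (by linarith) hy
    have h3 : GG (-(u + 2 / 5 * y)) y = Hf u y + (4459 / 10000 - 2835 / 10000 * u +
        1701 / 10000 * y - 19 / 10000 * (u * y)) := by
      unfold GG Hf
      ring
    rw [h3]
    nlinarith
  · have h1 : 0 ≤ (u + 2 / 5 * y) ^ 8 := by positivity
    have h2 : 0 ≤ y ^ 8 := by positivity
    have h4 : GG (-(u + 2 / 5 * y)) y = (4459 / 10000 - 2835 / 10000 * u - 11 / 1000 * u ^ 3) +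
        y * (1701 / 10000 - 3367 / 10000 * u + 297 / 10000 * u ^ 2) -
        y ^ 2 * (3367 / 25000 + 693 / 50000 * u) -
        5 / 10 ^ 15 * ((u + 2 / 5 * y) ^ 8 + y ^ 8) := by
      unfold GG
      ring
    rw [h4]
    have h5 : 0 ≤ 1701 / 10000 - 3367 / 10000 * u + 297 / 10000 * u ^ 2 := by nlinarith
    have h6 : y * (1701 / 10000 - 3367 / 10000 * u + 297 / 10000 * u ^ 2) ≤ 0 :=
      mul_nonpos_of_nonpos_of_nonneg hy h5
    have h7 : 0 ≤ y ^ 2 * (3367 / 25000 + 693 / 50000 * u) := by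
      apply mul_nonneg (sq_nonneg y)
      linarith
    have h8 : 0 ≤ u ^ 3 := by
      apply pow_nonneg
      linarith
    linarith

/-- the middle range -/
theorem mid (s y : ℝ) (h1 : -90 ≤ s) (h2 : s ≤ 9) :
    GG (s - 2 / 5 * y) y ≤ Real.exp s / 2 := by
  have hC : 0 < 3367 / 25000 - 693 / 50000 * s := by linarith
  have hkey : PP s ≤ 2 * (3367 / 25000 - 693 / 50000 * s) * Real.exp s := by
    rcases le_total (-(22 / 10)) s with h3 | h3
    · have h4 : PP s ≤ (6734 / 25000 - 693 / 25000 * s) * T7 s := by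
        rcases le_total 0 s with h0 | h0
        · exact psi_pos s h0 h2
        · exact psi_neg s h0 h3
      have h5 := T7_le_exp s
      have h6 : (6734 / 25000 - 693 / 25000 * s) * T7 s ≤
          (6734 / 25000 - 693 / 25000 * s) * Real.exp s :=
        mul_le_mul_of_nonneg_left h5 (by linarith)
      linarith
    · have h4 := PP_neg (-s) (by linarith) (by linarith)
      rw [neg_neg] at h4
      have h5 : 0 ≤ 2 * (3367 / 25000 - 693 / 50000 * s) * Real.exp s := by positivity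
      linarith
  have h7 : 0 ≤ (s - 2 / 5 * y) ^ 8 := by positivity
  have h8 : 0 ≤ y ^ 8 := by positivity
  have h9 : GG (s - 2 / 5 * y) y = (4459 / 10000 + 2835 / 10000 * s + 11 / 1000 * s ^ 3) +
      y * (1701 / 10000 + 3367 / 10000 * s + 297 / 10000 * s ^ 2) -
      y ^ 2 * (3367 / 25000 - 693 / 50000 * s) -
      5 / 10 ^ 15 * ((s - 2 / 5 * y) ^ 8 + y ^ 8) := by
    unfold GG
    ring
  set C := 3367 / 25000 - 693 / 50000 * s with hCdef
  set B := 1701 / 10000 + 3367 / 10000 * s + 297 / 10000 * s ^ 2 with hB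
  set A := 4459 / 10000 + 2835 / 10000 * s + 11 / 1000 * s ^ 3 with hA
  have hPP : PP s = B ^ 2 + 4 * C * A := by
    rw [hA, hB, hCdef]
    unfold PP
    ring
  have h10 : 0 ≤ 4 * C * (Real.exp s / 2 - (A + y * B - y ^ 2 * C)) := by
    have : 4 * C * (Real.exp s / 2 - (A + y * B - y ^ 2 * C)) =
        (2 * C * Real.exp s - (B ^ 2 + 4 * C * A)) + (2 * C * y - B) ^ 2 := by ring
    rw [this, ← hPP]
    have := sq_nonneg (2 * C * y - B)
    linarith
  have h11 : 0 ≤ Real.exp s / 2 - (A + y * B - y ^ 2 * C) :=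
    nonneg_of_mul_nonneg_right h10 (by linarith)
  rw [h9]
  linarith

/-- large `s` -/
theorem large (s y : ℝ) (h1 : 9 ≤ s) : GG (s - 2 / 5 * y) y ≤ Real.exp s / 2 := by
  obtain ⟨t, rfl⟩ : ∃ t, s = 9 + t := ⟨s - 9, by ring⟩
  have ht : 0 ≤ t := by linarith
  have hexp : 8000 * (1 + t + t ^ 2 / 2 + t ^ 3 / 6) ≤ Real.exp (9 + t) := by
    rw [Real.exp_add]
    have e1 : (8000 : ℝ) ≤ Real.exp 9 := by
      have a1 : Real.exp 9 = Real.exp 1 ^ 9 := by
        rw [← Real.exp_nat_mul]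
        norm_num
      rw [a1]
      have a2 : (2.7182818283 : ℝ) < Real.exp 1 := Real.exp_one_gt_d9
      have a3 : (2.7182818283 : ℝ) ^ 9 ≤ Real.exp 1 ^ 9 := pow_le_pow_left₀ (by norm_num) a2.le 9
      have a4 : (8000 : ℝ) ≤ 2.7182818283 ^ 9 := by norm_num
      linarith
    have e2 : 1 + t + t ^ 2 / 2 + t ^ 3 / 6 ≤ Real.exp t := by
      have := Real.sum_le_exp_of_nonneg ht 4
      simp only [Finset.sum_range_succ, Finset.sum_range_zero, Nat.factorial] at this
      norm_num at this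
      linarith
    calc 8000 * (1 + t + t ^ 2 / 2 + t ^ 3 / 6) ≤ 8000 * Real.exp t := by linarith
      _ ≤ Real.exp 9 * Real.exp t := mul_le_mul_of_nonneg_right e1 (Real.exp_pos t).le
  set s := 9 + t with hs
  have h7 : 0 ≤ (s - 2 / 5 * y) ^ 8 := by positivity
  have h9 : GG (s - 2 / 5 * y) y = (4459 / 10000 + 2835 / 10000 * s + 11 / 1000 * s ^ 3) +
      y * (1701 / 10000 + 3367 / 10000 * s + 297 / 10000 * s ^ 2) -
      y ^ 2 * (3367 / 25000 - 693 / 50000 * s) -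
      5 / 10 ^ 15 * ((s - 2 / 5 * y) ^ 8 + y ^ 8) := by
    unfold GG
    ring
  set B := 1701 / 10000 + 3367 / 10000 * s + 297 / 10000 * s ^ 2 with hB
  have hB0 : 0 ≤ B := by rw [hB]; positivity
  set w := |y| with hw
  have hw0 : 0 ≤ w := abs_nonneg y
  have hyB : y * B ≤ w * B := mul_le_mul_of_nonneg_right (le_abs_self y) hB0
  have hy2 : y ^ 2 = w ^ 2 := (sq_abs y).symm
  have hy8 : y ^ 8 = w ^ 8 := by
    have : y ^ 8 = (y ^ 2) ^ 4 := by ring
    rw [this, hy2]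
    ring
  -- the terms in `w`
  have hmain : w * B + w ^ 2 * (1386 / 100000 * t) - 5 / 10 ^ 15 * w ^ 8 ≤
      25 * s * B + 625 * s ^ 2 * (1386 / 100000 * t) := by
    have hs0 : 9 ≤ s := h1
    rcases le_total w (25 * s) with h | h
    · have a1 : w * B ≤ 25 * s * B := mul_le_mul_of_nonneg_right h hB0
      have a2 : w ^ 2 ≤ (25 * s) ^ 2 := pow_le_pow_left₀ hw0 h 2
      have a3 : w ^ 2 * (1386 / 100000 * t) ≤ (25 * s) ^ 2 * (1386 / 100000 * t) :=
        mul_le_mul_of_nonneg_right a2 (by positivity)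
      have a4 : 0 ≤ 5 / 10 ^ 15 * w ^ 8 := by positivity
      nlinarith
    · have b1 : (25 * s) ^ 6 ≤ w ^ 6 := pow_le_pow_left₀ (by linarith) h 6
      have b2 : (25 * s) ^ 7 ≤ w ^ 7 := pow_le_pow_left₀ (by linarith) h 7
      have b3 : (9 : ℝ) ^ 5 ≤ s ^ 5 := pow_le_pow_left₀ (by norm_num) hs0 5
      have b4 : (9 : ℝ) ^ 5 * s ≤ s ^ 6 := by
        have := mul_le_mul_of_nonneg_right b3 (show (0 : ℝ) ≤ s by linarith)
        calc (9 : ℝ) ^ 5 * s ≤ s ^ 5 * s := this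
          _ = s ^ 6 := by ring
      have b5 : (9 : ℝ) ^ 5 * s ^ 2 ≤ s ^ 7 := by
        have := mul_le_mul_of_nonneg_right b3 (show (0 : ℝ) ≤ s ^ 2 by positivity)
        calc (9 : ℝ) ^ 5 * s ^ 2 ≤ s ^ 5 * s ^ 2 := this
          _ = s ^ 7 := by ring
      have b7 : B ≤ 5 / 10 ^ 15 * (1 / 2) * w ^ 7 := by
        rw [hB]
        nlinarith
      have b8 : w * B ≤ w * (5 / 10 ^ 15 * (1 / 2) * w ^ 7) := mul_le_mul_of_nonneg_left b7 hw0
      have b9 : 0 ≤ 25 * s * B + 625 * s ^ 2 * (1386 / 100000 * t) := by positivity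
      have b10 : w ^ 2 * (1386 / 100000 * t) ≤ w ^ 2 * (5 / 10 ^ 15 * (1 / 2) * w ^ 6) := by
        apply mul_le_mul_of_nonneg_left _ (by positivity)
        have : t = s - 9 := by rw [hs]; ring
        nlinarith
      nlinarith
  have hfin : (4459 / 10000 + 2835 / 10000 * s + 11 / 1000 * s ^ 3) +
      (25 * s * B + 625 * s ^ 2 * (1386 / 100000 * t)) ≤
      8000 * (1 + t + t ^ 2 / 2 + t ^ 3 / 6) / 2 := by
    rw [hB, hs]
    have t2 : 0 ≤ t ^ 2 := by positivity
    have t3 : 0 ≤ t ^ 3 := by positivity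
    nlinarith
  have hC : - y ^ 2 * (3367 / 25000 - 693 / 50000 * s) ≤ w ^ 2 * (1386 / 100000 * t) := by
    rw [hy2, hs]
    nlinarith [sq_nonneg w]
  rw [h9, hy8]
  have h12 : 0 ≤ 5 / 10 ^ 15 * (s - 2 / 5 * y) ^ 8 := by positivity
  linarith

/-- the certificate inequality -/
theorem cert_core (x y : ℝ) : GG x y ≤ Real.exp (x + 2 / 5 * y) / 2 := by
  obtain ⟨s, hs⟩ : ∃ s, s = x + 2 / 5 * y := ⟨_, rfl⟩
  have hx : x = s - 2 / 5 * y := by linarith
  rw [← hs, hx]
  rcases le_total s 9 with h1 | h1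
  · rcases le_total (-90) s with h2 | h2
    · exact mid s y h2 h1
    · have h3 := far (-s) y (by linarith)
      have h4 : -(-s + 2 / 5 * y) = s - 2 / 5 * y := by ring
      rw [h4] at h3
      have := Real.exp_pos s
      linarith
  · exact large s y h1

theorem cert : W478R.CertOK (2 / 5) (4459 / 10000) (2835 / 10000) (3367 / 10000) (11 / 1000)
    (429 / 10000) (5 / 10 ^ 15) where
  hT0 := by norm_num
  hT1 := by norm_num
  hg := by norm_num
  ha := by norm_num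
  hb := by norm_num
  hd := by norm_num
  he := by norm_num
  hdl := by norm_num
  hc := fun x y => cert_core x y

end Pool.Agent.W460.RS
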